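import Mathlib
import Pool.Agent.Lib.MP_87965e_co.LieOps

set_option autoImplicit false

open scoped Manifold ContDiff

universe u v

namespace Pool.Agent.Results.MP_87965e_co.TwoLargeNilBohr

/-- A set `S` of positive integers is 2-large if for every 2-colouring of the positive integers
(the colour of `0` plays no role, as `0 < a`) and every `k` there is a monochromatic arithmetic
progression `a, a + s, …, a + (k - 1) s` of length `k` with difference `s` in `S`. -/
def TwoLarge (S : Set ℕ) : Prop :=
  ∀ (c : ℕ → Fin 2) (k : ℕ), ∃ a s : ℕ, 0 < a ∧ s ∈ S ∧ ∀ i < k, c (a + i * s) = c a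

/-- `S` is a set of `d`-nilBohr recurrence: for every nilpotent Lie group `G` of class at most `d`
(a Hausdorff smooth manifold modelled on a finite dimensional real vector space `E` with smooth
group operations, not necessarily connected), every discrete cocompact subgroup `Γ`, every
translation by `τ` on the nilmanifold `G ⧸ Γ`, every point `x` and every open set `U` containing
`x`, there is `n` in `S` with `τ ^ n • x` in `U`. -/
def NilBohrRecurrence (d : ℕ) (S : Set ℕ) : Prop :=
  ∀ (E : Type v) [NormedAddCommGroup E] [NormedSpace ℝ E] [FiniteDimensional ℝ E]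
    (G : Type u) [TopologicalSpace G] [ChartedSpace E G] [Group G] [LieGroup 𝓘(ℝ, E) ∞ G]
    [T2Space G] [Group.IsNilpotent G], Group.nilpotencyClass G ≤ d →
    ∀ (Γ : Subgroup G) [DiscreteTopology Γ] [CompactSpace (G ⧸ Γ)] (τ : G) (x : G ⧸ Γ)
      (U : Set (G ⧸ Γ)), IsOpen U → x ∈ U → ∃ n ∈ S, τ ^ n • x ∈ U

/-- Every 2-large set of positive integers is a set of `d`-nilBohr recurrence for every `d`. -/
theorem result (S : Set ℕ) (_ : ∀ s ∈ S, 0 < s) (hS : TwoLarge S) (d : ℕ) :
    NilBohrRecurrence.{u, v} d S := by
  intro E _ _ _ G _ _ _ _ _ hnil _ Γ _ _ τ x U hU hx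
  exact Pool.Agent.Lib.MP_87965e_co.lie_recurrence E G hnil Γ S hS τ x U hU hx

end Pool.Agent.Results.MP_87965e_co.TwoLargeNilBohr
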